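import Pool.Agent.BEP.Stmts

/-!
# Squad BEP: SCE, scaling of eigenfunctions
-/

set_option autoImplicit false

namespace Pool.Agent.BEP.H86

open Set Filter Topology MeasureTheory
open scoped InnerProductSpace ENNReal
open Pool.Agent Pool.Agent.BE01 Pool.Agent.BEG Pool.Agent.BEP

noncomputable section

variable {d : ℕ}

/-- the homeomorphism `x ↦ R⁻¹ x` -/
def hm (d : ℕ) (R : ℝ) (h : R⁻¹ ≠ 0) : En d ≃ₜ En d := Homeomorph.smulOfNeZero R⁻¹ h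

theorem hm_apply (R : ℝ) (h : R⁻¹ ≠ 0) (x : En d) : hm d R h x = R⁻¹ • x := rfl

/-- the factor of the volume -/
def cf (d : ℕ) (R : ℝ) : ℝ≥0∞ := ENNReal.ofReal |(R⁻¹ ^ Module.finrank ℝ (En d))⁻¹|

theorem cf_ne_zero {R : ℝ} (h : R⁻¹ ≠ 0) : cf d R ≠ 0 := by
  have h1 : 0 < |(R⁻¹ ^ Module.finrank ℝ (En d))⁻¹| := abs_pos.2 (inv_ne_zero (pow_ne_zero _ h))
  exact (ENNReal.ofReal_pos.2 h1).ne'

theorem cf_ne_top (R : ℝ) : cf d R ≠ ∞ := ENNReal.ofReal_ne_top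

theorem map_vol {R : ℝ} (h : R⁻¹ ≠ 0) {Ω : Set (En d)} :
    Measure.map (hm d R h) (BE01F.vol (Sc R Ω)) = cf d R • BE01F.vol Ω := by
  have h1 : Sc R Ω = hm d R h ⁻¹' Ω := rfl
  have h2 := ((hm d R h).measurableEmbedding.restrict_map (volume : Measure (En d)) Ω)
  have h3 : Measure.map (hm d R h) (volume : Measure (En d)) = cf d R • volume :=
    Measure.map_addHaar_smul (volume : Measure (En d)) h
  unfold BE01F.vol
  rw [h1, ← h2, h3, Measure.restrict_smul]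

theorem nm {F : Type*} [NormedAddCommGroup F] {R : ℝ} (h : R⁻¹ ≠ 0) {Ω : Set (En d)}
    (f : En d → F) :
    eLpNorm (fun x => f (R⁻¹ • x)) 2 (BE01F.vol (Sc R Ω)) =
      cf d R ^ (1 / (2 : ℝ≥0∞)).toReal • eLpNorm f 2 (BE01F.vol Ω) := by
  have h1 := (hm d R h).measurableEmbedding.eLpNorm_map_measure (g := f) (p := 2)
    (μ := BE01F.vol (Sc R Ω))
  rw [map_vol h, eLpNorm_smul_measure_of_ne_top (by norm_num)] at h1
  exact h1.symm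

theorem ml {F : Type*} [NormedAddCommGroup F] {R : ℝ} (h : R⁻¹ ≠ 0) {Ω : Set (En d)}
    {f : En d → F} (hf : MemLp f 2 (BE01F.vol Ω)) :
    MemLp (fun x => f (R⁻¹ • x)) 2 (BE01F.vol (Sc R Ω)) := by
  have h1 := (hm d R h).measurableEmbedding.memLp_map_measure_iff (g := f) (p := 2)
    (μ := BE01F.vol (Sc R Ω))
  rw [map_vol h] at h1
  exact h1.1 (hf.smul_measure (cf_ne_top R))

theorem ig {R : ℝ} (h : R⁻¹ ≠ 0) {Ω : Set (En d)} (f : En d → ℝ) :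
    BE01F.intg (Sc R Ω) (fun x => f (R⁻¹ • x)) = (cf d R).toReal * BE01F.intg Ω f := by
  have h1 := (hm d R h).measurableEmbedding.integral_map (μ := BE01F.vol (Sc R Ω)) f
  rw [map_vol h, integral_smul_measure] at h1
  exact h1.symm

theorem tst {R : ℝ} (h : R⁻¹ ≠ 0) {Ω : Set (En d)} {ψ : En d → ℝ} (hψ : BE01F.Test Ω ψ) :
    BE01F.Test (Sc R Ω) (fun x => ψ (R⁻¹ • x)) := by
  refine ⟨hψ.1.comp (contDiff_const_smul R⁻¹), hψ.2.1.comp_homeomorph (hm d R h), ?_⟩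
  have h1 : tsupport (ψ ∘ hm d R h) = hm d R h ⁻¹' tsupport ψ :=
    tsupport_comp_eq_preimage ψ (hm d R h)
  have h2 : tsupport (fun x => ψ (R⁻¹ • x)) = hm d R h ⁻¹' tsupport ψ := h1
  rw [h2]
  intro x hx
  exact hψ.2.2 hx

theorem grd {R : ℝ} {Ω : Set (En d)} {ψ : En d → ℝ} (hψ : BE01F.Test Ω ψ) (x : En d) :
    gradient (fun x => ψ (R⁻¹ • x)) x = R⁻¹ • gradient ψ (R⁻¹ • x) := by
  have h1 : DifferentiableAt ℝ ψ (R⁻¹ • x) :=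
    (hψ.1.differentiable (by simp)).differentiableAt
  have h2 : HasFDerivAt (fun x : En d => R⁻¹ • x) (R⁻¹ • ContinuousLinearMap.id ℝ (En d)) x :=
    (hasFDerivAt_id x).const_smul R⁻¹
  have h3 : HasFDerivAt (fun x => ψ (R⁻¹ • x))
      ((fderiv ℝ ψ (R⁻¹ • x)).comp (R⁻¹ • ContinuousLinearMap.id ℝ (En d))) x :=
    h1.hasFDerivAt.comp x h2
  unfold gradient
  rw [h3.fderiv, ContinuousLinearMap.comp_smul, ContinuousLinearMap.comp_id, map_smulₛₗ]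
  simp

theorem h10 {R : ℝ} (h : R⁻¹ ≠ 0) {Ω : Set (En d)} {u : En d → ℝ} {F : En d → En d}
    (hu : BE01F.H10 Ω u F) :
    BE01F.H10 (Sc R Ω) (fun x => u (R⁻¹ • x)) (fun x => R⁻¹ • F (R⁻¹ • x)) := by
  refine ⟨ml h hu.1, (ml h hu.2.1).const_smul R⁻¹, fun ε hε => ?_⟩
  set k : ℝ≥0∞ := cf d R ^ (1 / (2 : ℝ≥0∞)).toReal with hk
  have k1 : k ≠ ∞ := ENNReal.rpow_ne_top_of_nonneg ENNReal.toReal_nonneg (cf_ne_top R)
  have k2 : ∀ r : ℝ≥0∞, r ≠ ∞ → ∀ a : ℝ≥0∞, a < ε / ((1 + r) * k) →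
      r * (k * a) < ε ∧ k * a < ε := by
    intro r hr a ha
    have h2 : a * ((1 + r) * k) < ε := ENNReal.mul_lt_of_lt_div ha
    constructor
    · refine lt_of_le_of_lt ?_ h2
      calc r * (k * a) = a * (r * k) := by ring
        _ ≤ a * ((1 + r) * k) := by gcongr; exact le_add_self
    · refine lt_of_le_of_lt ?_ h2
      calc k * a = a * (1 * k) := by ring
        _ ≤ a * ((1 + r) * k) := by gcongr; exact le_self_add
  have k3 : (1 + ‖R⁻¹‖ₑ) * k ≠ ∞ := ENNReal.mul_ne_top (by simp) k1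
  obtain ⟨ψ, h1, h2, h3⟩ := hu.2.2 (ε / ((1 + ‖R⁻¹‖ₑ) * k)) (ENNReal.div_pos hε.ne' k3)
  refine ⟨fun x => ψ (R⁻¹ • x), tst h h1, ?_, ?_⟩
  · have e1 := nm h (Ω := Ω) (fun x => u x - ψ x)
    have e2 : BE01F.nrm (Sc R Ω) (fun x => u (R⁻¹ • x) - ψ (R⁻¹ • x)) =
        k * BE01F.nrm Ω (fun x => u x - ψ x) := by
      rw [hk]
      exact e1
    rw [e2]
    exact (k2 _ (by simp) _ h2).2
  · have e1 := nm h (Ω := Ω) (fun x => F x - gradient ψ x)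
    have e2 : BE01F.nrmv (Sc R Ω) (fun x => R⁻¹ • F (R⁻¹ • x) -
        gradient (fun x => ψ (R⁻¹ • x)) x) =
        ‖R⁻¹‖ₑ * (k * BE01F.nrmv Ω (fun x => F x - gradient ψ x)) := by
      have e3 : (fun x => R⁻¹ • F (R⁻¹ • x) - gradient (fun x => ψ (R⁻¹ • x)) x) =
          R⁻¹ • (fun x => F (R⁻¹ • x) - gradient ψ (R⁻¹ • x)) := by
        funext x
        rw [grd h1 x, Pi.smul_apply, smul_sub]
      rw [e3]
      unfold BE01F.nrmv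
      rw [eLpNorm_const_smul, hk]
      congr 1
    rw [e2]
    exact (k2 _ (by simp) _ h3).1

theorem sc_sc {R : ℝ} (h : R⁻¹ ≠ 0) (Ω : Set (En d)) : Sc R⁻¹ (Sc R Ω) = Ω := by
  ext x
  show R⁻¹ • (R⁻¹⁻¹ • x) ∈ Ω ↔ x ∈ Ω
  rw [smul_smul, mul_inv_cancel₀ h, one_smul]

theorem dom {R : ℝ} (hR : 0 < R) {Ω : Set (En d)} (hΩ : Dom Ω) : Dom (Sc R Ω) := by
  refine ⟨hΩ.1.preimage (continuous_const_smul R⁻¹), ?_, ?_⟩
  · obtain ⟨M, hM⟩ := (Metric.isBounded_iff_subset_closedBall (0 : En d)).1 hΩ.2.1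
    refine (Metric.isBounded_iff_subset_closedBall (0 : En d)).2 ⟨R * M, fun x hx => ?_⟩
    have h1 := hM hx
    rw [mem_closedBall_zero_iff] at h1 ⊢
    rw [norm_smul, Real.norm_eq_abs, abs_of_pos (inv_pos.2 hR)] at h1
    calc ‖x‖ = R * (R⁻¹ * ‖x‖) := by rw [← mul_assoc, mul_inv_cancel₀ hR.ne', one_mul]
      _ ≤ R * M := by gcongr
  · obtain ⟨x, hx⟩ := hΩ.2.2
    refine ⟨R • x, ?_⟩
    show R⁻¹ • (R • x) ∈ Ω
    rw [smul_smul, inv_mul_cancel₀ hR.ne', one_smul]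
    exact hx

theorem sce : SceStmt := by
  intro d Ω R l u hR hΩ
  have h : R⁻¹ ≠ 0 := inv_ne_zero hR.ne'
  refine ⟨dom hR hΩ, ?_⟩
  rintro ⟨F, hF, hE⟩
  refine ⟨_, h10 h hF, fun Ψ hΨ => ?_⟩
  have t1 : BE01F.Test Ω (fun x => Ψ (R⁻¹⁻¹ • x)) := by
    have h1 := tst (R := R⁻¹) (inv_ne_zero h) hΨ
    rwa [sc_sc h Ω] at h1
  have e0 : Ψ = fun x => (fun x => Ψ (R⁻¹⁻¹ • x)) (R⁻¹ • x) := by
    funext x
    show Ψ x = Ψ (R⁻¹⁻¹ • (R⁻¹ • x))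
    rw [smul_smul, inv_mul_cancel₀ h, one_smul]
  generalize (fun x => Ψ (R⁻¹⁻¹ • x)) = ψ at t1 e0
  subst e0
  have h2 := hE ψ t1
  have e1 : (fun x => ⟪R⁻¹ • F (R⁻¹ • x), gradient (fun x => ψ (R⁻¹ • x)) x⟫_ℝ) =
      fun x => (fun y => R⁻¹ * (R⁻¹ * ⟪F y, gradient ψ y⟫_ℝ)) (R⁻¹ • x) := by
    funext x
    rw [grd t1 x, real_inner_smul_left, real_inner_smul_right]
  have e2 : BE01F.intg Ω (fun y => R⁻¹ * (R⁻¹ * ⟪F y, gradient ψ y⟫_ℝ)) =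
      R⁻¹ * (R⁻¹ * BE01F.intg Ω (fun y => ⟪F y, gradient ψ y⟫_ℝ)) := by
    unfold BE01F.intg
    rw [integral_const_mul, integral_const_mul]
  have e3 := ig h (Ω := Ω) (fun y => u y * ψ y)
  have e5 := ig h (Ω := Ω) (fun y => R⁻¹ * (R⁻¹ * ⟪F y, gradient ψ y⟫_ℝ))
  rw [e2, h2] at e5
  refine (congrArg (BE01F.intg (Sc R Ω)) e1).trans (e5.trans ?_)
  have e4 : BE01F.intg (Sc R Ω) (fun x => u (R⁻¹ • x) * ψ (R⁻¹ • x)) =
      (cf d R).toReal * BE01F.intg Ω (fun y => u y * ψ y) := e3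
  refine Eq.trans ?_ (congrArg (fun z => l / R ^ 2 * z) e4).symm
  have h5 : R ≠ 0 := hR.ne'
  field_simp

end

end Pool.Agent.BEP.H86
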